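import Pool.Agent.Work.MP_8da9ea_nt.SF.OnT
import Pool.Agent.Work.MP_8da9ea_nt.EC.I_GenLD
import Pool.Agent.Work.MP_8da9ea_nt.EC.Fin2
import Pool.Agent.Work.MP_8da9ea_nt.GC.Fin

/-!
# Toric points on a line: generic lattices, and all lattices
-/

set_option autoImplicit false

namespace Pool.Agent.Work.MP_8da9ea_nt.SF

open Pool.Agent.Work.MP_8da9ea_nt.EB Pool.Agent.Work.MP_327059_nt.GL Pool.Agent.Work.MP_8da9ea_nt.S
  Pool.Agent.Work.MP_8da9ea_nt.EC Pool.Agent.Work.MP_8da9ea_nt.TG Submodule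

/-- **Generic lattices, all points of the line.** -/
theorem genA {m : ℕ} {b : Fin m → ℂ} {z : ℂ} (hb : LinearIndependent ℚ b)
    (halg : ∀ j, IsAlgebraic ℚ (b j)) (hSch : Sch b z) {S : Set ℂ} (hS : S.Countable) {ω₁ ω₂ : ℂ}
    (him : (ω₂ / ω₁).im ≠ 0) (hj : jInv ω₁ ω₂ ∉ CD.cl S) {s k : ℕ} (t : Fin s → ℂ)
    (p : Fin k → ℂ) (d : ℕ) (t₀ : Fin d → ℂ)
    (hI : TG.Inn (CD.cl S) t (Fin.append (fun j => b j * z) t₀)) (ρ : ℕ) (y : Fin ρ → ℂ)
    (hy : ∀ i, IsAlgebraic (bigField ω₁ ω₂ t p) (y i)) (hyc : ClInd S y) (N : ℕ)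
    (hN : N + d ≤ tDim t + 3 + kDim2 ω₁ ω₂ p + max 1 ρ) : HasTrdeg (bigField ω₁ ω₂ t p) N := by
  classical
  have hCM : ¬ IsCM ω₁ ω₂ := CD.closed_not_CM (CD.closed_cl S) him hj
  have hk : kDim2 ω₁ ω₂ p = 2 * pDim ω₁ ω₂ p := by
    unfold kDim2 pDim
    rw [if_neg hCM]
  obtain ⟨a, M, A, hMF, hMe, hA, hdim⟩ :=
    x_TSel (CD.cl S) (CD.closed_cl S).kap s m d t (fun j => b j * z) t₀ hI
  obtain ⟨σ, hσ⟩ := sub_sch b z hSch halg hb a A hA
  have hexp : ∀ M : Fin s → ℤ, Complex.exp (∑ l, (M l : ℂ) * t l) ∈ bigField ω₁ ω₂ t p := by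
    intro M
    rw [Complex.exp_sum]
    refine prod_mem fun l _ => ?_
    rw [Complex.exp_int_mul]
    exact zpow_mem (bigField_exp ω₁ ω₂ t p l) _
  have hsum : ∀ i, ∑ j, (A i j : ℂ) * (b j * z) = (∑ j, (A i j : ℂ) * b j) * z := by
    intro i
    rw [Finset.sum_mul]
    exact Finset.sum_congr rfl fun j _ => by ring
  have hT : HasTrdeg (bigField ω₁ ω₂ t p ⊓ CD.cl S) a := by
    refine ⟨_, fun i => ?_, hσ⟩
    have key : ∀ v : Fin a ⊕ Fin a,
        Sum.elim (fun i => (∑ j, (A i j : ℂ) * b j) * z)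
          (fun i => Complex.exp ((∑ j, (A i j : ℂ) * b j) * z)) v ∈
            bigField ω₁ ω₂ t p ⊓ CD.cl S := by
      rintro (i | i)
      · simp only [Sum.elim_inl]
        obtain ⟨q, hq⟩ := Complex.exp_eq_exp_iff_exists_int.1 (hMe i)
        rw [← hsum i]
        have h1 : ∑ j, (A i j : ℂ) * (b j * z) =
            ∑ l, (M i l : ℂ) * t l - (q : ℂ) * (2 * (Real.pi : ℂ) * Complex.I) := by
          rw [hq]
          ring
        rw [h1]
        refine ⟨sub_mem (sum_mem fun l _ => mul_mem (intCast_mem _ _) (big_t _ _ _ _ _))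
          (mul_mem (intCast_mem _ _) (big_pi' him t p)), ?_⟩
        exact sub_mem (hMF i) (mul_mem (intCast_mem _ _) (CD.closed_cl S).kap)
      · simp only [Sum.elim_inr]
        rw [← hsum i, ← hMe i]
        exact ⟨hexp _, CD.closed_exp (CD.closed_cl S) (hMF i)⟩
    exact key _
  have h5 := CD.all_mov (t := t) (p := p) CD.prf_Lin CD.prf_Lin2 CD.prf_Lin3 CD.prf_Add CD.end_Mul
    him hS hj y (fun i => CD.mem_acl.2 (hy i)) hyc
  exact (h5.hasTrdeg hT).mono le_rfl (by omega)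

/-- the field of periods is algebraic over five numbers -/
theorem per_theta (ω₁ ω₂ : ℂ) (him : (ω₂ / ω₁).im ≠ 0) : ∃ θ : Fin 5 → ℂ,
    ∀ x ∈ bigField 1 (ω₂ / ω₁) (![] : Fin 0 → ℂ) (![] : Fin 0 → ℂ),
      IsAlgebraic (IntermediateField.adjoin ℚ (Set.range θ)) x := by
  have key : ∀ τ : ℂ, 0 < τ.im → ∃ θ : Fin 5 → ℂ,
      ∀ x ∈ bigField 1 τ (![] : Fin 0 → ℂ) (![] : Fin 0 → ℂ),
        IsAlgebraic (IntermediateField.adjoin ℚ (Set.range θ)) x := by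
    intro τ hτ
    refine ⟨![τ, et τ, gg2 τ, gg3 τ, kap], fun x hx => ?_⟩
    set E := IntermediateField.adjoin ℚ (Set.range ![τ, et τ, gg2 τ, gg3 τ, kap]) with hE
    have hmem : ∀ i : Fin 5, (![τ, et τ, gg2 τ, gg3 τ, kap] : Fin 5 → ℂ) i ∈ E := fun i =>
      IntermediateField.subset_adjoin _ _ ⟨i, rfl⟩
    have h0 : τ ∈ E := hmem 0
    have h1 : et τ ∈ E := hmem 1
    have h2 : gg2 τ ∈ E := hmem 2
    have h3 : gg3 τ ∈ E := hmem 3
    have h4 : kap ∈ E := hmem 4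
    have hle : bigField 1 τ (![] : Fin 0 → ℂ) (![] : Fin 0 → ℂ) ≤ E := by
      refine big_le 1 τ _ _ (fun l => l.elim0) (fun l => l.elim0)
        h2 h3 (fun i => i.elim0) (fun i => i.elim0) (fun i => i.elim0) (one_mem _) h0 h1 ?_
      rw [zt_half_tau hτ]
      exact sub_mem (mul_mem h0 h1) h4
    exact isAlgebraic_algebraMap (⟨x, hle hx⟩ : E)
  rcases lt_or_gt_of_ne him with hlt | hgt
  · obtain ⟨θ, hθ⟩ := key (-(ω₂ / ω₁)) (by simpa using hlt)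
    refine ⟨θ, ?_⟩
    rwa [bigField_neg] at hθ
  · exact key _ hgt

end Pool.Agent.Work.MP_8da9ea_nt.SF
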