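import Pool.Agent.Work.MP_8da9ea_nt.CR.Main
import Pool.Agent.Work.MP_8da9ea_nt.EC.I_TSel
import Pool.Agent.Work.MP_8da9ea_nt.EC.I_PSel
import Pool.Agent.Work.MP_8da9ea_nt.EB.I_Kf
import Pool.Agent.Work.MP_8da9ea_nt.Bd.B05

/-!
# Toric points on a line and an arbitrary lattice
-/

set_option autoImplicit false

namespace Pool.Agent.Work.MP_8da9ea_nt.SF

open Pool.Agent.Work.MP_8da9ea_nt.EB Pool.Agent.Work.MP_327059_nt.GL Pool.Agent.Work.MP_8da9ea_nt.S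
  Pool.Agent.Work.MP_8da9ea_nt.EC Pool.Agent.Work.MP_8da9ea_nt.TG Submodule

theorem x_TSel : S_TSel := TSel_pf TPart_pf
theorem x_PSel : S_PSel := PSel_pf PPart_pf Kf_pf

/-- an empty family of points before `p₀` -/
theorem innE_append {F : IntermediateField ℚ ℂ} {ω₁ ω₂ : ℂ} {n d : ℕ} {p : Fin n → ℂ}
    {p₀ : Fin d → ℂ} (h : InnE F ω₁ ω₂ p p₀) :
    InnE F ω₁ ω₂ p (Fin.append (![] : Fin 0 → ℂ) p₀) := by
  intro g hg hF
  obtain ⟨h', q, q', h1, h2⟩ := h g hg hF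
  refine ⟨Fin.append (![] : Fin 0 → ℂ) h', q, q', fun i => ?_, ?_⟩
  · refine Fin.addCases (fun i => i.elim0) (fun i => ?_) i
    rw [Fin.append_right]
    exact h1 i
  · rw [h2, Fin.sum_univ_add]
    simp only [Fin.append_right, Finset.univ_eq_empty, Finset.sum_empty, zero_add]

/-- **The lower bound, lattices `ℤ ω₁ + ℤ ω₁ τ`.** -/
theorem onT_up {S : Set ℂ} (hS : S.Countable) {τ ω₁ : ℂ} (h1 : ω₁ ≠ 0) (hτ : 0 < τ.im)
    (hτF : τ ∈ CD.cl S) {r : ℕ} (u : Fin r → ℂ)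
    (hu : AlgebraicIndependent (bigField 1 τ (![] : Fin 0 → ℂ) (![] : Fin 0 → ℂ))
      (fun i => Complex.exp (u i))) {s n : ℕ} (t : Fin s → ℂ) (p : Fin n → ℂ) (d d' : ℕ)
    (t₀ : Fin d → ℂ) (p₀ : Fin d' → ℂ) (hI : TG.Inn (CD.cl S) t (Fin.append u t₀))
    (hIE : InnE (CD.cl S) ω₁ (ω₁ * τ) p p₀) (ρ : ℕ) (y : Fin ρ → ℂ)
    (hy : ∀ i, IsAlgebraic (bigField ω₁ (ω₁ * τ) t p) (y i)) (hyc : ClInd S y) (e : ℕ)
    (he : HasTrdeg (bigField 1 τ (![] : Fin 0 → ℂ) (![] : Fin 0 → ℂ)) e) (N : ℕ)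
    (hN : N + d + 2 * d' ≤ e + tDim t + kDim2 ω₁ (ω₁ * τ) p +
      max ρ (min 1 (modDim (CD.cl S) t + modDim2 (CD.cl S) ω₁ (ω₁ * τ) p))) :
    HasTrdeg (bigField ω₁ (ω₁ * τ) t p) N := by
  classical
  have hdiv : ω₁ * τ / ω₁ = τ := mul_div_cancel_left₀ _ h1
  have him : (ω₁ * τ / ω₁).im ≠ 0 := by
    rw [hdiv]
    exact hτ.ne'
  obtain ⟨a, M, A, hMF, hMexp, hA, hadim⟩ :=
    x_TSel (CD.cl S) (CD.closed_cl S).kap s r d t u t₀ hI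
  obtain ⟨b, g, G, σ, -, -, -, -, -, hGrow, hbdim⟩ := x_PSel (CD.cl S) ω₁ (ω₁ * τ)
    (by rw [hdiv]; exact hτ) (by rw [hdiv]; exact hτF) n 0 d' p ![] p₀ (innE_append hIE)
  have hb0 : b = 0 := by
    by_contra hb
    have h2 := hGrow (fun _ => 1) (fun _ => by
      rw [hdiv]
      simpa using I_AlgL.IsE_rat τ 1) (fun l => l.elim0)
    exact one_ne_zero (congrFun h2 ⟨0, Nat.pos_of_ne_zero hb⟩)
  subst hb0
  have hB := CD.base_big t p h1 hτ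
  have hle : bigField 1 τ (![] : Fin 0 → ℂ) (![] : Fin 0 → ℂ) ≤
      CD.acl (bigField ω₁ (ω₁ * τ) t p) ⊓ CD.cl S := by
    refine le_inf ?_ (CD.closed_big (CD.closed_cl S) (one_mem _) hτF (fun l => l.elim0)
      (fun l => l.elim0))
    refine big_le 1 τ _ _ (fun l => l.elim0) (fun l => l.elim0)
      hB.g2 hB.g3 (fun i => i.elim0) (fun i => i.elim0) (fun i => i.elim0) (one_mem _) hB.tau
      hB.et ?_
    rw [zt_half_tau hτ]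
    exact sub_mem (mul_mem hB.tau hB.et) hB.kap
  have hs := mono_indep _ u hu A hA
  obtain ⟨x, hx, hxi⟩ := he
  have h3 := hxi.sumElim_of_tower
    (S := bigField 1 τ (![] : Fin 0 → ℂ) (![] : Fin 0 → ℂ))
    (by
      rintro _ ⟨i, rfl⟩
      exact ⟨⟨_, hx i⟩, rfl⟩) hs
  have hexp : ∀ M : Fin s → ℤ, Complex.exp (∑ l, (M l : ℂ) * t l) ∈
      bigField ω₁ (ω₁ * τ) t p := by
    intro M
    rw [Complex.exp_sum]
    refine prod_mem fun l _ => ?_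
    rw [Complex.exp_int_mul]
    exact zpow_mem (bigField_exp ω₁ (ω₁ * τ) t p l) _
  have hT : HasTrdeg (CD.acl (bigField ω₁ (ω₁ * τ) t p) ⊓ CD.cl S) (a + e) := by
    refine ⟨_, ?_, h3.comp (finSumFinEquiv (m := a) (n := e)).symm (Equiv.injective _)⟩
    intro i
    have key : ∀ v : Fin a ⊕ Fin e,
        Sum.elim (fun i => Complex.exp (∑ j, (A i j : ℂ) * u j)) x v ∈
          CD.acl (bigField ω₁ (ω₁ * τ) t p) ⊓ CD.cl S := by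
      rintro (i | i)
      · simp only [Sum.elim_inl]
        rw [← hMexp i]
        exact ⟨CD.le_acl _ (hexp _), CD.closed_exp (CD.closed_cl S) (hMF i)⟩
      · exact hle (hx i)
    exact key _
  have hj : jInv ω₁ (ω₁ * τ) ∈ CD.cl S :=
    (CD.closed_jiff (CD.closed_cl S) him).2 (by rw [hdiv]; exact hτF)
  have h6 := CD.all_fix (t := t) (p := p) CD.prf_Lin CD.prf_Lin2 CD.prf_Add CD.end_Mul
    him hS hj y (fun i => CD.mem_acl.2 (hy i)) hyc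
  have h7 : CD.RelTr (CD.acl (CD.acl (bigField ω₁ (ω₁ * τ) t p))) (CD.cl S) _ :=
    h6.mono (CD.le_acl _) le_rfl le_rfl
  have h8 := CD.hasTrdeg_acl (h7.hasTrdeg hT)
  exact h8.mono le_rfl (by omega)

/-- **The lower bound, all lattices with `j` in the field.** -/
theorem onT {S : Set ℂ} (hS : S.Countable) {ω₁ ω₂ : ℂ} (him : (ω₂ / ω₁).im ≠ 0)
    (hj : jInv ω₁ ω₂ ∈ CD.cl S) {r : ℕ} (u : Fin r → ℂ)
    (hu : AlgebraicIndependent (bigField 1 (ω₂ / ω₁) (![] : Fin 0 → ℂ) (![] : Fin 0 → ℂ))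
      (fun i => Complex.exp (u i))) {s n : ℕ} (t : Fin s → ℂ) (p : Fin n → ℂ) (d d' : ℕ)
    (t₀ : Fin d → ℂ) (p₀ : Fin d' → ℂ) (hI : TG.Inn (CD.cl S) t (Fin.append u t₀))
    (hIE : InnE (CD.cl S) ω₁ ω₂ p p₀) (ρ : ℕ) (y : Fin ρ → ℂ)
    (hy : ∀ i, IsAlgebraic (bigField ω₁ ω₂ t p) (y i)) (hyc : ClInd S y) (e : ℕ)
    (he : HasTrdeg (bigField 1 (ω₂ / ω₁) (![] : Fin 0 → ℂ) (![] : Fin 0 → ℂ)) e) (N : ℕ)
    (hN : N + d + 2 * d' ≤ e + tDim t + kDim2 ω₁ ω₂ p +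
      max ρ (min 1 (modDim (CD.cl S) t + modDim2 (CD.cl S) ω₁ ω₂ p))) :
    HasTrdeg (bigField ω₁ ω₂ t p) N := by
  have h1 : ω₁ ≠ 0 := by
    rintro rfl
    simp at him
  have hτS : ω₂ / ω₁ ∈ CD.cl S := (CD.closed_jiff (CD.closed_cl S) him).1 hj
  rcases lt_or_gt_of_ne him with hlt | hgt
  · have h2 : -ω₂ = ω₁ * (-(ω₂ / ω₁)) := by field_simp
    have e1 : bigField ω₁ (ω₁ * (-(ω₂ / ω₁))) t p = bigField ω₁ ω₂ t p := by
      rw [← h2, bigField_neg]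
    have e2 : modDim2 (CD.cl S) ω₁ (ω₁ * (-(ω₂ / ω₁))) p = modDim2 (CD.cl S) ω₁ ω₂ p := by
      rw [← h2, modDim2_neg]
    have e3 : kDim2 ω₁ (ω₁ * (-(ω₂ / ω₁))) p = kDim2 ω₁ ω₂ p := by
      rw [← h2, I_AlgL.kDim2_neg]
    have e4 : bigField 1 (-(ω₂ / ω₁)) (![] : Fin 0 → ℂ) (![] : Fin 0 → ℂ) =
        bigField 1 (ω₂ / ω₁) (![] : Fin 0 → ℂ) (![] : Fin 0 → ℂ) := bigField_neg _ _ _ _
    have h8 : InnE (CD.cl S) ω₁ (ω₁ * (-(ω₂ / ω₁))) p p₀ := by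
      apply I_AlgL.InnE_neg
      rw [← h2, neg_neg]
      exact hIE
    have h9 := onT_up hS h1 (τ := -(ω₂ / ω₁)) (by simpa using hlt) (neg_mem hτS) u
      (by rw [e4]; exact hu) t p d d' t₀ p₀ hI h8 ρ y (by rw [e1]; exact hy) hyc e
      (by rw [e4]; exact he) N (by rw [e2, e3]; exact hN)
    rwa [e1] at h9
  · have hω : ω₁ * (ω₂ / ω₁) = ω₂ := by field_simp
    have h9 := onT_up hS h1 (τ := ω₂ / ω₁) hgt hτS u hu t p d d' t₀ p₀ hI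
      (by rw [hω]; exact hIE) ρ y (by rw [hω]; exact hy) hyc e he N (by rw [hω]; exact hN)
    rwa [hω] at h9

end Pool.Agent.Work.MP_8da9ea_nt.SF
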